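import Pool.Agent.H.MP_a9f24d_an.F

set_option autoImplicit false

namespace Pool.Agent.Results.MP_a839f6_an.ZR

open MeasureTheory Filter Topology MvPolynomial
open scoped ENNReal

/-- Exponents of the monomials of degree at most `k` in `n` variables. -/
abbrev Ix (n k : ℕ) : Type := {α : Fin n → Fin (k+1) // ∑ i, (α i : ℕ) ≤ k}

/-- The Vandermonde determinant of degree `k`. -/
noncomputable def vdm {n k : ℕ} (z : Ix n k → Fin n → ℂ) : ℂ :=
  Matrix.det (Matrix.of fun a b : Ix n k => ∏ i, z a i ^ ((b.1 i : ℕ)))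

/-- The sum of the degrees of the monomials of degree at most `k`. -/
noncomputable def ell (n k : ℕ) : ℝ := ∑ a : Ix n k, ∑ i, ((a.1 i : ℕ) : ℝ)

/-- Siciak's extremal function `exp V_K`. -/
noncomputable def siciak {n : ℕ} (K : Set (Fin n → ℂ)) (z : Fin n → ℂ) : ℝ≥0∞ :=
  1 ⊔ ⨆ (p : MvPolynomial (Fin n) ℂ) (_ : 1 ≤ p.totalDegree) (_ : ∀ x ∈ K, ‖eval x p‖ ≤ 1),
    ‖eval z p‖ₑ ^ ((1 : ℝ) / p.totalDegree)

open Pool.Agent.H.MP_a9f24d_an (Loc D Z core of_lims D_pos)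

lemma loc_of {n : ℕ} {K : Set (Fin n → ℂ)} (hne : K.Nonempty) {z0 : Fin n → ℂ} {r B : ℝ} (B1 : 1 ≤ B)
    (h : ∀ z ∈ Metric.closedBall z0 r, siciak K z ≤ ENNReal.ofReal B) : Loc K z0 r B := by
  intro k p t hp ht z hz
  have t0 : 0 ≤ t := (norm_nonneg _).trans (ht _ hne.some_mem)
  have B0 : 0 < B := by linarith
  refine le_of_forall_pos_le_add fun η η0 => ?_
  obtain ⟨s, hs⟩ : ∃ s, s = t + η / B ^ k := ⟨_, rfl⟩
  have ts : t < s := hs ▸ lt_add_of_pos_right _ (by positivity)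
  have s0 : 0 < s := t0.trans_lt ts
  have e : t * B ^ k + η = s * B ^ k := by rw [hs]; field_simp
  obtain ⟨q, hq⟩ : ∃ q, q = C ((s⁻¹ : ℝ) : ℂ) * p := ⟨_, rfl⟩
  have nq : ∀ x, ‖eval x q‖ = s⁻¹ * ‖eval x p‖ := fun x => by
    rw [hq, map_mul, eval_C, norm_mul, Complex.norm_real, Real.norm_of_nonneg (by positivity)]
  have dq : q.totalDegree ≤ k := hq ▸ (totalDegree_mul _ _).trans (by simpa using hp)
  have bq : ∀ x ∈ K, ‖eval x q‖ ≤ 1 := fun x hx => by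
    rw [nq, inv_mul_le_iff₀ s0]; linarith [ht x hx]
  rw [e, ← inv_mul_le_iff₀ s0, ← nq]
  rcases Nat.eq_zero_or_pos q.totalDegree with h0 | h0
  · rw [totalDegree_eq_zero_iff_eq_C.1 h0] at bq ⊢
    have := bq _ hne.some_mem
    rw [eval_C] at this ⊢
    exact this.trans (one_le_pow₀ B1)
  · have h1 : ‖eval z q‖ₑ ^ ((1 : ℝ) / q.totalDegree) ≤ ENNReal.ofReal B :=
      le_trans (le_sup_of_le_right (le_iSup_of_le q (le_iSup_of_le h0 (by rw [iSup_pos bq]))))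
        (h z hz)
    have d0 : (0 : ℝ) < q.totalDegree := by exact_mod_cast h0
    rw [one_div, ENNReal.rpow_inv_le_iff d0, ENNReal.rpow_natCast, ← ENNReal.ofReal_pow B0.le,
      ← ofReal_norm, ENNReal.ofReal_le_ofReal_iff (by positivity)] at h1
    exact h1.trans (pow_le_pow_right₀ B1 dq)

theorem result (n : ℕ) (hn : 1 ≤ n) (K : Set (Fin n → ℂ)) (hK : IsCompact K) (hne : K.Nonempty)
    (μ : Measure (Fin n → ℂ)) [IsFiniteMeasure μ] (hμ : μ Kᶜ = 0) (δ : ℝ)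
    (hδ : Tendsto (fun k : ℕ => (sSup {s : ℝ | ∃ z : Ix n k → (Fin n → ℂ), (∀ a, z a ∈ K) ∧
      s = ‖vdm z‖}) ^ ((1 : ℝ) / ell n k)) atTop (𝓝 δ))
    (hZ : Tendsto (fun k : ℕ => (∫ z, ‖vdm z‖ ^ 2 ∂(Measure.pi fun _ : Ix n k => μ)) ^
      ((1 : ℝ) / (2 * ell n k))) atTop (𝓝 δ))
    (p : ℕ → MvPolynomial (Fin n) ℂ) (hp : Tendsto (fun j => (p j).totalDegree) atTop atTop)
    (z : Fin n → ℂ) :
    limsup (fun j => (‖eval z (p j)‖ₑ / eLpNorm (fun y => eval y (p j)) 2 μ) ^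
      ((1 : ℝ) / (p j).totalDegree)) atTop ≤ limsup (siciak K) (𝓝 z) := by
  refine le_of_forall_gt_imp_ge_of_dense fun b hb => ?_
  rcases eq_or_ne b ⊤ with rfl | bt
  · exact le_top
  obtain ⟨B, -, hB1, hB2⟩ := ENNReal.lt_iff_exists_real_btwn.1 hb
  have B1 : 1 < B := by
    have : (1 : ℝ≥0∞) ≤ limsup (siciak K) (𝓝 z) :=
      le_limsup_of_frequently_le (Frequently.of_forall fun _ => le_sup_left)
    exact ENNReal.one_lt_ofReal.1 (this.trans_lt hB1)
  obtain ⟨r, r0, hr⟩ := Metric.nhds_basis_closedBall.eventually_iff.1 (eventually_lt_of_limsup_lt hB1)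
  have loc := loc_of hne B1.le fun w hw => (hr hw).le
  have hA := loc.bd r0 B1.le
  obtain ⟨a1, a2⟩ := of_lims hn hK hne hA μ hδ hZ
  obtain ⟨R, R0, hR⟩ := hK.isBounded.subset_closedBall_lt 0 z
  have hb' : B < b.toReal := (ENNReal.ofReal_lt_iff_lt_toReal (by linarith) bt).1 hB2
  obtain ⟨k0, hk0⟩ := core hK hne μ hμ (D_pos hK hne hA) a1 a2 r0 R0 B1.le
    (ε := b.toReal / B - 1) (by rw [sub_pos, one_lt_div (by linarith)]; exact hb')
  have e : B * (1 + (b.toReal / B - 1)) = b.toReal := by field_simp; ring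
  rw [e] at hk0
  refine limsup_le_of_le (by isBoundedDefault) ?_
  filter_upwards [hp.eventually_ge_atTop (k0 + 1)] with j hj
  have h1 := hk0 _ (by omega) z (fun w hw => hR hw) loc (p j) le_rfl
  have d0 : (0 : ℝ) < (p j).totalDegree := by exact_mod_cast (show 0 < (p j).totalDegree by omega)
  have hi := Pool.Agent.H.MP_a9f24d_an.int_cont hK μ hμ (f := fun y => ‖eval y (p j)‖ ^ 2)
    ((p j).continuous_eval.norm.pow 2)
  have h2 : eLpNorm (fun y => eval y (p j)) 2 μ = ENNReal.ofReal √(∫ y, ‖eval y (p j)‖ ^ 2 ∂μ) := by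
    rw [MemLp.eLpNorm_eq_integral_rpow_norm two_ne_zero ENNReal.ofNat_ne_top
      ((memLp_two_iff_integrable_sq_norm (p j).continuous_eval.aestronglyMeasurable).2 hi)]
    simp [Real.sqrt_eq_rpow]
  rw [one_div, ENNReal.rpow_inv_le_iff d0, ENNReal.rpow_natCast, h2]
  refine ENNReal.div_le_of_le_mul ?_
  rw [← ENNReal.ofReal_toReal bt, ← ENNReal.ofReal_pow ENNReal.toReal_nonneg,
    ← ENNReal.ofReal_mul (by positivity), ← ofReal_norm]
  apply ENNReal.ofReal_le_ofReal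
  rw [← sq_le_sq₀ (norm_nonneg _) (by positivity), mul_pow,
    Real.sq_sqrt (integral_nonneg fun _ => by positivity), ← pow_mul, mul_comm _ 2]
  exact h1

end Pool.Agent.Results.MP_a839f6_an.ZR
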